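import Mathlib
import Pool.Agent.Helper92.PU.Leaves
import Pool.Agent.Helper48.PU.Pat

/-!
# PU: leaf Z, state S

`L` is a three-star: all the colours `≠ c0` lie in the centre cell `(d0, e0)`, the colour `c0` has two arms.
Counting the patterns of two points in one block of `A` shows that every block of `A` is one rainbow line.
-/

set_option autoImplicit false

namespace Pool.Agent.Helper86.PU

open Pool.Agent.Helper92.SS
open Pool.Agent.Helper92.PU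
open Pool.Agent.Helper48.PU

/-- The three-star. -/
structure Star (p q : ℕ) {r : ℕ} (cl : ℤ × ℤ → ZMod r) (L : Finset (ℤ × ℤ)) (d0 e0 : ℤ)
    (c0 : ZMod r) : Prop where
  cen : ∀ l ∈ L, cl l ≠ c0 → (p : ℤ) ∣ l.1 - d0 ∧ (q : ℤ) ∣ l.2 - e0
  star : ∀ l ∈ L, (p : ℤ) ∣ l.1 - d0 ∨ (q : ℤ) ∣ l.2 - e0
  armP : ∃ l ∈ L, ¬ (p : ℤ) ∣ l.1 - d0
  armQ : ∃ l ∈ L, ¬ (q : ℤ) ∣ l.2 - e0

theorem Star.sw {p q r : ℕ} {cl : ℤ × ℤ → ZMod r} {L : Finset (ℤ × ℤ)} {d0 e0 : ℤ} {c0 : ZMod r}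
    (h : Star p q cl L d0 e0 c0) : Star q p (cs cl) (Pool.Agent.Helper92.SS.sw L) e0 d0 c0 where
  cen := fun l hl hc => (h.cen (l.2, l.1) (Pool.Agent.Helper92.SS.mem_sw.1 hl) hc).symm
  star := fun l hl => (h.star (l.2, l.1) (Pool.Agent.Helper92.SS.mem_sw.1 hl)).symm
  armP := by
    obtain ⟨l, hl, h1⟩ := h.armQ
    exact ⟨(l.2, l.1), Pool.Agent.Helper92.SS.mem_sw.2 hl, h1⟩
  armQ := by
    obtain ⟨l, hl, h1⟩ := h.armP
    exact ⟨(l.2, l.1), Pool.Agent.Helper92.SS.mem_sw.2 hl, h1⟩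

private theorem h86_dsub {P x y z : ℤ} (h1 : P ∣ x - y) (h2 : P ∣ x - z) : P ∣ z - y := by
  have e : z - y = (x - y) - (x - z) := by ring
  rw [e]
  exact dvd_sub h1 h2

private theorem h86_dtr {P x y z : ℤ} (h1 : P ∣ x - y) (h2 : P ∣ y - z) : P ∣ x - z := by
  have e : x - z = (x - y) + (y - z) := by ring
  rw [e]
  exact dvd_add h1 h2

private theorem h86_dsy {P x y : ℤ} (h1 : P ∣ x - y) : P ∣ y - x := by
  rw [← neg_sub]
  exact (dvd_neg).2 h1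

/-- Two other colours. -/
private theorem h86_cols {r : ℕ} [NeZero r] (r3 : 3 ≤ r) (c0 : ZMod r) :
    ∃ c c' : ZMod r, c ≠ c0 ∧ c' ≠ c0 ∧ c' ≠ c := by
  obtain ⟨c, -, hc⟩ := Finset.exists_mem_notMem_of_card_lt_card
    (s := ({c0} : Finset (ZMod r))) (t := Finset.univ) (by
      rw [Finset.card_singleton, Finset.card_univ, ZMod.card]
      omega)
  obtain ⟨c', -, hc'⟩ := Finset.exists_mem_notMem_of_card_lt_card
    (s := ({c0, c} : Finset (ZMod r))) (t := Finset.univ) (by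
      rw [Finset.card_univ, ZMod.card]
      exact lt_of_le_of_lt Finset.card_le_two (by omega))
  rw [Finset.mem_singleton] at hc
  rw [Finset.mem_insert, Finset.mem_singleton, not_or] at hc'
  exact ⟨c, c', hc, hc'.1, hc'.2⟩

/-- The star, once one point of another colour is in the cell `(l1.1, l2.2)`. -/
private theorem h86_star_aux {p q r : ℕ} [NeZero r] (r3 : 3 ≤ r) {cl : ℤ × ℤ → ZMod r}
    {L : Finset (ℤ × ℤ)} (fL : ∀ y : ZMod r, (kl cl L y).Nonempty)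
    (hS : ∀ l ∈ L, ∀ l' ∈ L, ¬ (p : ℤ) ∣ l.1 - l'.1 → ¬ (q : ℤ) ∣ l.2 - l'.2 → cl l = cl l')
    {l1 l2 : ℤ × ℤ} (h1 : l1 ∈ L) (h2 : l2 ∈ L) (hd : ¬ (p : ℤ) ∣ l1.1 - l2.1)
    (he : ¬ (q : ℤ) ∣ l1.2 - l2.2) {l : ℤ × ℤ} (hl : l ∈ L) (hc : cl l ≠ cl l1)
    (hl1 : (p : ℤ) ∣ l.1 - l1.1) (hl2 : (q : ℤ) ∣ l.2 - l2.2) :
    Star p q cl L l1.1 l2.2 (cl l1) := by
  have hcc : cl l1 = cl l2 := hS _ h1 _ h2 hd he
  -- the two possible cells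
  have two : ∀ k ∈ L, cl k ≠ cl l1 → ((p : ℤ) ∣ k.1 - l1.1 ∧ (q : ℤ) ∣ k.2 - l2.2) ∨
      ((p : ℤ) ∣ k.1 - l2.1 ∧ (q : ℤ) ∣ k.2 - l1.2) := by
    intro k hk hkc
    have a1 : (p : ℤ) ∣ k.1 - l1.1 ∨ (q : ℤ) ∣ k.2 - l1.2 := by
      by_contra hcon
      rw [not_or] at hcon
      exact hkc (hS _ hk _ h1 hcon.1 hcon.2)
    have a2 : (p : ℤ) ∣ k.1 - l2.1 ∨ (q : ℤ) ∣ k.2 - l2.2 := by
      by_contra hcon
      rw [not_or] at hcon
      exact hkc ((hS _ hk _ h2 hcon.1 hcon.2).trans hcc.symm)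
    rcases a1 with a1 | a1
    · rcases a2 with a2 | a2
      · exact absurd (h86_dsub a2 a1) hd
      · exact Or.inl ⟨a1, a2⟩
    · rcases a2 with a2 | a2
      · exact Or.inr ⟨a2, a1⟩
      · exact absurd (h86_dsub a2 a1) he
  -- a point in the second cell has the colour of any point of the first cell
  have key : ∀ k ∈ L, ∀ k' ∈ L, (p : ℤ) ∣ k.1 - l1.1 → (q : ℤ) ∣ k.2 - l2.2 →
      (p : ℤ) ∣ k'.1 - l2.1 → (q : ℤ) ∣ k'.2 - l1.2 → cl k' = cl k := by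
    intro k hk k' hk' b1 b2 b3 b4
    refine hS _ hk' _ hk ?_ ?_
    · intro b5
      exact hd (h86_dsy (h86_dtr (h86_dsy b3) (h86_dtr b5 b1)))
    · intro b5
      exact he (h86_dtr (h86_dsy b4) (h86_dtr b5 b2))
  obtain ⟨c, c', hc1, hc2, hc3⟩ : ∃ c c' : ZMod r, c = cl l ∧ c' ≠ cl l1 ∧ c' ≠ c := by
    obtain ⟨c', -, hc'⟩ := Finset.exists_mem_notMem_of_card_lt_card
      (s := ({cl l1, cl l} : Finset (ZMod r))) (t := Finset.univ) (by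
        rw [Finset.card_univ, ZMod.card]
        exact lt_of_le_of_lt Finset.card_le_two (by omega))
    rw [Finset.mem_insert, Finset.mem_singleton, not_or] at hc'
    exact ⟨cl l, c', rfl, hc'.1, hc'.2⟩
  obtain ⟨l'', hl''⟩ := fL c'
  obtain ⟨hl'', hcl''⟩ := mem_kl.1 hl''
  have hl3 : (p : ℤ) ∣ l''.1 - l1.1 ∧ (q : ℤ) ∣ l''.2 - l2.2 := by
    rcases two l'' hl'' (by rw [hcl'']; exact hc2) with b | b
    · exact b
    · exfalso
      have := key l hl l'' hl'' hl1 hl2 b.1 b.2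
      exact hc3 (by rw [← hcl'', this, hc1])
  have cen : ∀ k ∈ L, cl k ≠ cl l1 → (p : ℤ) ∣ k.1 - l1.1 ∧ (q : ℤ) ∣ k.2 - l2.2 := by
    intro k hk hkc
    rcases two k hk hkc with b | b
    · exact b
    · exfalso
      have e1 := key l hl k hk hl1 hl2 b.1 b.2
      have e2 := key l'' hl'' k hk hl3.1 hl3.2 b.1 b.2
      exact hc3 (by rw [← hcl'', ← e2, e1, hc1])
  refine ⟨cen, ?_, ⟨l2, h2, fun b => hd (h86_dsy b)⟩, ⟨l1, h1, he⟩⟩
  intro k hk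
  by_cases hkc : cl k = cl l1
  · by_contra hcon
    rw [not_or] at hcon
    have b1 : ¬ (p : ℤ) ∣ k.1 - l.1 := fun b => hcon.1 (h86_dtr b hl1)
    have b2 : ¬ (q : ℤ) ∣ k.2 - l.2 := fun b => hcon.2 (h86_dtr b hl2)
    exact hc ((hS _ hk _ hl b1 b2).symm.trans hkc)
  · exact Or.inl (cen k hk hkc).1

/-- The star and a pair of equal colours with different bottom digits. -/
theorem star_ex {p n q m r : ℕ} {ca cl : ℤ × ℤ → ZMod r} {A L : Finset (ℤ × ℤ)}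
    (h : Mn p n q m ca cl A L)
    (hS : ∀ l ∈ L, ∀ l' ∈ L, ¬ (p : ℤ) ∣ l.1 - l'.1 → ¬ (q : ℤ) ∣ l.2 - l'.2 → cl l = cl l') :
    ∃ (d0 e0 : ℤ) (c0 : ZMod r), Star p q cl L d0 e0 c0 := by
  have : NeZero r := ⟨h.hr.ne_zero⟩
  obtain ⟨l1, h1, l2, h2, hd, he⟩ := zz_pair h.oL1 h.oL2
  have hcc : cl l1 = cl l2 := hS _ h1 _ h2 hd he
  obtain ⟨c, c', hc, -, -⟩ := h86_cols h.r3 (cl l1)
  obtain ⟨l, hl⟩ := h.fL c
  obtain ⟨hl, hcl⟩ := mem_kl.1 hl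
  have hlc : cl l ≠ cl l1 := by rw [hcl]; exact hc
  have a1 : (p : ℤ) ∣ l.1 - l1.1 ∨ (q : ℤ) ∣ l.2 - l1.2 := by
    by_contra hcon
    rw [not_or] at hcon
    exact hlc (hS _ hl _ h1 hcon.1 hcon.2)
  have a2 : (p : ℤ) ∣ l.1 - l2.1 ∨ (q : ℤ) ∣ l.2 - l2.2 := by
    by_contra hcon
    rw [not_or] at hcon
    exact hlc ((hS _ hl _ h2 hcon.1 hcon.2).trans hcc.symm)
  rcases a1 with a1 | a1
  · rcases a2 with a2 | a2
    · exact absurd (h86_dsub a2 a1) hd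
    · exact ⟨_, _, _, h86_star_aux h.r3 h.fL hS h1 h2 hd he hl hlc a1 a2⟩
  · rcases a2 with a2 | a2
    · exact ⟨_, _, _, h86_star_aux h.r3 h.fL hS h2 h1 (fun b => hd (h86_dsy b))
        (fun b => he (h86_dsy b)) hl (by rw [← hcc]; exact hlc) a2 a1⟩
    · exact absurd (h86_dsub a2 a1) he

/-! ### counting in the star -/

section cnt

variable {p q r : ℕ} {cl : ℤ × ℤ → ZMod r} {L : Finset (ℤ × ℤ)} {d0 e0 : ℤ} {c0 : ZMod r}

private theorem h86_one (hp : p.Prime) (d : ℤ) : ¬ (p : ℤ) ∣ d + 1 - d := by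
  rw [add_sub_cancel_left]
  exact fun h => (Nat.prime_iff_prime_int.1 hp).not_isUnit (isUnit_of_dvd_one h)

theorem c1_zero (hs : Star p q cl L d0 e0 c0) {c : ZMod r} (hc : c ≠ c0) {x : ℤ}
    (hx : ¬ (p : ℤ) ∣ x - d0) : c1 (kl cl L c) p x = 0 := by
  unfold c1
  rw [Finset.card_eq_zero, Finset.filter_eq_empty_iff]
  intro a ha h1
  obtain ⟨h2, h3⟩ := mem_kl.1 ha
  exact hx (h86_dtr (h86_dsy h1) (hs.cen a h2 (by rw [h3]; exact hc)).1)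

theorem c1_cen (hs : Star p q cl L d0 e0 c0) {c : ZMod r} (hc : c ≠ c0) :
    c1 (kl cl L c) p d0 = (kl cl L c).card := by
  unfold c1
  congr 1
  rw [Finset.filter_eq_self]
  intro a ha
  obtain ⟨h2, h3⟩ := mem_kl.1 ha
  exact (hs.cen a h2 (by rw [h3]; exact hc)).1

/-- The consequences of the pattern `{p, r}`. -/
theorem pr_cnt (hp : p.Prime) (hr : 0 < r) (r3 : 3 ≤ r) (hs : Star p q cl L d0 e0 c0)
    (H : ∀ (c c' : ZMod r) (x x' : ℤ), (c1 (kl cl L c) p x : ℤ) - (c1 (kl cl L c') p x : ℤ) =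
      (c1 (kl cl L c) p x' : ℤ) - (c1 (kl cl L c') p x' : ℤ)) :
    ∃ k b : ℕ, 0 < k ∧ (∀ c, c ≠ c0 → (kl cl L c).card = b) ∧
      (∀ x : ℤ, ¬ (p : ℤ) ∣ x - d0 → c1 L p x = k) ∧ L.card = p * k + r * b ∧
      c1 L p d0 = k + r * b ∧ c1 (kl cl L c0) p d0 = k + b := by
  have : NeZero r := ⟨hr.ne'⟩
  set k : ℕ := c1 (kl cl L c0) p (d0 + 1) with hk
  have h1 : ∀ c, c ≠ c0 → ∀ x : ℤ, c1 (kl cl L c0) p x = k + c1 (kl cl L c) p x := by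
    intro c hc x
    have e := H c0 c x (d0 + 1)
    rw [c1_zero hs hc (h86_one hp d0), ← hk] at e
    push_cast at e
    omega
  have h2 : ∀ c, c ≠ c0 → (kl cl L c0).card = p * k + (kl cl L c).card := by
    intro c hc
    rw [← card_sum1 hp.pos (kl cl L c0), ← card_sum1 hp.pos (kl cl L c)]
    simp only [h1 c hc]
    rw [Finset.sum_add_distrib, Finset.sum_const, Finset.card_range, smul_eq_mul]
  obtain ⟨c, c', hc, hc', hcc⟩ := h86_cols r3 c0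
  have hb : ∀ c', c' ≠ c0 → (kl cl L c').card = (kl cl L c).card := by
    intro c' hc'
    have e1 := h2 c hc
    have e2 := h2 c' hc'
    omega
  have hcard : (Finset.univ.erase c0).card = r - 1 := by
    rw [Finset.card_erase_of_mem (Finset.mem_univ _), Finset.card_univ, ZMod.card]
  have hr1 : (r - 1) * (kl cl L c).card + (kl cl L c).card = r * (kl cl L c).card := by
    obtain ⟨s, rfl⟩ : ∃ s, r = s + 1 := ⟨r - 1, by omega⟩
    rw [Nat.add_sub_cancel]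
    ring
  have hx : ∀ x : ℤ, ¬ (p : ℤ) ∣ x - d0 → c1 L p x = k := by
    intro x hx
    rw [← c1_kl cl L p x, ← Finset.add_sum_erase _ _ (Finset.mem_univ c0),
      Finset.sum_eq_zero fun c' hc' => c1_zero hs (Finset.ne_of_mem_erase hc') hx,
      h1 c hc x, c1_zero hs hc hx, add_zero, add_zero]
  refine ⟨k, (kl cl L c).card, ?_, hb, hx, ?_, ?_, ?_⟩
  · obtain ⟨l, hl, hl1⟩ := hs.armP
    rw [← hx l.1 hl1]
    unfold c1
    exact Finset.card_pos.2 ⟨l, Finset.mem_filter.2 ⟨hl, by simp⟩⟩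
  · rw [← card_kl cl L, ← Finset.add_sum_erase _ _ (Finset.mem_univ c0),
      Finset.sum_congr rfl fun c' hc' => hb c' (Finset.ne_of_mem_erase hc'), Finset.sum_const,
      hcard, smul_eq_mul, h2 c hc]
    omega
  · rw [← c1_kl cl L p d0, ← Finset.add_sum_erase _ _ (Finset.mem_univ c0),
      Finset.sum_congr rfl fun c' hc' => (c1_cen hs (Finset.ne_of_mem_erase hc')).trans
        (hb c' (Finset.ne_of_mem_erase hc')), Finset.sum_const, hcard, smul_eq_mul, h1 c hc d0,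
      c1_cen hs hc]
    omega
  · rw [h1 c hc d0, c1_cen hs hc]

theorem c1_cs (cl : ℤ × ℤ → ZMod r) (L : Finset (ℤ × ℤ)) (c : ZMod r) (q : ℕ) (y : ℤ) :
    c1 (kl (cs cl) (Pool.Agent.Helper92.SS.sw L) c) q y = c2 (kl cl L c) q y := by
  have e : kl (cs cl) (Pool.Agent.Helper92.SS.sw L) c =
      Pool.Agent.Helper92.SS.sw (kl cl L c) := kl_sw cl L c
  rw [e, c1_sw']

/-- The consequences of the pattern `{q, r}`. -/
theorem qr_cnt (hq : q.Prime) (hr : 0 < r) (r3 : 3 ≤ r) (hs : Star p q cl L d0 e0 c0)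
    (H : ∀ (c c' : ZMod r) (y y' : ℤ), (c2 (kl cl L c) q y : ℤ) - (c2 (kl cl L c') q y : ℤ) =
      (c2 (kl cl L c) q y' : ℤ) - (c2 (kl cl L c') q y' : ℤ)) :
    ∃ k b : ℕ, 0 < k ∧ (∀ c, c ≠ c0 → (kl cl L c).card = b) ∧
      (∀ y : ℤ, ¬ (q : ℤ) ∣ y - e0 → c2 L q y = k) ∧ L.card = q * k + r * b ∧
      c2 L q e0 = k + r * b ∧ c2 (kl cl L c0) q e0 = k + b := by
  obtain ⟨k, b, h1, h2, h3, h4, h5, h6⟩ := pr_cnt hq hr r3 hs.sw (fun c c' x x' => by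
    rw [c1_cs, c1_cs, c1_cs, c1_cs]
    exact H c c' x x')
  refine ⟨k, b, h1, ?_, ?_, ?_, ?_, ?_⟩
  · intro c hc
    have e := h2 c hc
    have e2 : kl (cs cl) (Pool.Agent.Helper92.SS.sw L) c =
      Pool.Agent.Helper92.SS.sw (kl cl L c) := kl_sw cl L c
    rwa [e2, card_sw] at e
  · intro y hy
    rw [← h3 y hy, c1_sw']
  · rw [← h4, card_sw]
  · rw [← h5, c1_sw']
  · rw [← h6, c1_cs]

theorem cc_zero1 (hs : Star p q cl L d0 e0 c0) {c : ZMod r} (hc : c ≠ c0) {x y : ℤ}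
    (hx : ¬ (p : ℤ) ∣ x - d0) : cc (kl cl L c) p q x y = 0 := by
  unfold cc
  rw [Finset.card_eq_zero, Finset.filter_eq_empty_iff]
  rintro a ha ⟨h1, -⟩
  obtain ⟨h2, h3⟩ := mem_kl.1 ha
  exact hx (h86_dtr (h86_dsy h1) (hs.cen a h2 (by rw [h3]; exact hc)).1)

theorem cc_zero2 (hs : Star p q cl L d0 e0 c0) {c : ZMod r} (hc : c ≠ c0) {x y : ℤ}
    (hy : ¬ (q : ℤ) ∣ y - e0) : cc (kl cl L c) p q x y = 0 := by
  unfold cc
  rw [Finset.card_eq_zero, Finset.filter_eq_empty_iff]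
  rintro a ha ⟨-, h1⟩
  obtain ⟨h2, h3⟩ := mem_kl.1 ha
  exact hy (h86_dtr (h86_dsy h1) (hs.cen a h2 (by rw [h3]; exact hc)).2)

theorem cc_zero0 (hs : Star p q cl L d0 e0 c0) {S : Finset (ℤ × ℤ)} (hS : S ⊆ L) {x y : ℤ}
    (hx : ¬ (p : ℤ) ∣ x - d0) (hy : ¬ (q : ℤ) ∣ y - e0) : cc S p q x y = 0 := by
  unfold cc
  rw [Finset.card_eq_zero, Finset.filter_eq_empty_iff]
  rintro a ha ⟨h1, h2⟩
  rcases hs.star a (hS ha) with h3 | h3
  · exact hx (h86_dtr (h86_dsy h1) h3)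
  · exact hy (h86_dtr (h86_dsy h2) h3)

theorem cc_e0 (hs : Star p q cl L d0 e0 c0) {S : Finset (ℤ × ℤ)} (hS : S ⊆ L) {x : ℤ}
    (hx : ¬ (p : ℤ) ∣ x - d0) : cc S p q x e0 = c1 S p x := by
  unfold cc c1
  congr 1
  refine Finset.filter_congr fun a ha => ?_
  constructor
  · exact fun h => h.1
  · intro h
    refine ⟨h, ?_⟩
    rcases hs.star a (hS ha) with h3 | h3
    · exact absurd (h86_dtr (h86_dsy h) h3) hx
    · exact h3

theorem cc_d0 (hs : Star p q cl L d0 e0 c0) {S : Finset (ℤ × ℤ)} (hS : S ⊆ L) {y : ℤ}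
    (hy : ¬ (q : ℤ) ∣ y - e0) : cc S p q d0 y = c2 S q y := by
  unfold cc c2
  congr 1
  refine Finset.filter_congr fun a ha => ?_
  constructor
  · exact fun h => h.2
  · intro h
    refine ⟨?_, h⟩
    rcases hs.star a (hS ha) with h3 | h3
    · exact h3
    · exact absurd (h86_dtr (h86_dsy h) h3) hy

theorem cc_cen (hs : Star p q cl L d0 e0 c0) {c : ZMod r} (hc : c ≠ c0) :
    cc (kl cl L c) p q d0 e0 = (kl cl L c).card := by
  unfold cc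
  congr 1
  rw [Finset.filter_eq_self]
  intro a ha
  obtain ⟨h2, h3⟩ := mem_kl.1 ha
  exact hs.cen a h2 (by rw [h3]; exact hc)

theorem cc_two {S : Finset (ℤ × ℤ)} {x y y' : ℤ} (h : ¬ (q : ℤ) ∣ y - y') :
    cc S p q x y + cc S p q x y' ≤ c1 S p x := by
  unfold cc c1
  rw [← Finset.card_union_of_disjoint]
  · refine Finset.card_le_card ?_
    intro a ha
    rw [Finset.mem_union, Finset.mem_filter, Finset.mem_filter] at ha
    rw [Finset.mem_filter]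
    rcases ha with ha | ha
    · exact ⟨ha.1, ha.2.1⟩
    · exact ⟨ha.1, ha.2.1⟩
  · rw [Finset.disjoint_filter]
    rintro a - ⟨-, h1⟩ ⟨-, h2⟩
    exact h (h86_dsub h2 h1)

theorem c1_c0 (hs : Star p q cl L d0 e0 c0) {x : ℤ} (hx : ¬ (p : ℤ) ∣ x - d0) :
    c1 (kl cl L c0) p x = c1 L p x := by
  unfold c1 kl
  rw [Finset.filter_filter]
  congr 1
  refine Finset.filter_congr fun a ha => ?_
  constructor
  · exact fun h => h.2
  · intro h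
    refine ⟨?_, h⟩
    by_contra hc
    exact hx (h86_dtr (h86_dsy h) (hs.cen a ha hc).1)

/-- The patterns `{p, r}` and `{p, q, r}` together are impossible. -/
theorem no_pr_pqr (hp : p.Prime) (hr : 0 < r) (r3 : 3 ≤ r) (hs : Star p q cl L d0 e0 c0)
    (H : ∀ (c c' : ZMod r) (x x' : ℤ), (c1 (kl cl L c) p x : ℤ) - (c1 (kl cl L c') p x : ℤ) =
      (c1 (kl cl L c) p x' : ℤ) - (c1 (kl cl L c') p x' : ℤ))
    (H3 : ∀ (c c' : ZMod r) (x x' y y' : ℤ),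
      ((cc (kl cl L c) p q x y : ℤ) - cc (kl cl L c') p q x y) +
      ((cc (kl cl L c) p q x' y' : ℤ) - cc (kl cl L c') p q x' y') =
      ((cc (kl cl L c) p q x' y : ℤ) - cc (kl cl L c') p q x' y) +
      ((cc (kl cl L c) p q x y' : ℤ) - cc (kl cl L c') p q x y')) : False := by
  have : NeZero r := ⟨hr.ne'⟩
  obtain ⟨k, b, h1, h2, h3, h4, h5, h6⟩ := pr_cnt hp hr r3 hs H
  obtain ⟨c, c', hc, hc', hcc⟩ := h86_cols r3 c0
  obtain ⟨l, hl, hl1⟩ := hs.armQ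
  have hx := h86_one hp d0
  have e := H3 c0 c (d0 + 1) d0 l.2 e0
  have hsub : kl cl L c0 ⊆ L := kl_sub cl L c0
  rw [cc_zero0 hs hsub hx hl1, cc_zero1 hs hc hx, cc_cen hs hc, cc_zero2 hs hc hl1,
    cc_zero1 hs hc hx, cc_e0 hs hsub hx, c1_c0 hs hx, h3 _ hx, h2 c hc] at e
  have e2 := cc_two (p := p) (S := kl cl L c0) (x := d0) hl1
  rw [h6] at e2
  have e3 : 0 < cc (kl cl L c0) p q d0 l.2 := by
    refine cc_pos.2 ⟨l, mem_kl.2 ⟨hl, ?_⟩, ?_, by simp⟩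
    · by_contra hcon
      exact hl1 (hs.cen l hl hcon).2
    · rcases hs.star l hl with h7 | h7
      · exact h7
      · exact absurd h7 hl1
  push_cast at e
  omega

/-- The patterns `{p, r}`, `{q, r}` and `{p, q}` together with `q = 2`: four divides the number of points. -/
theorem four_dvd (hp : p.Prime) (hq2 : q = 2) (hr : 0 < r) (r3 : 3 ≤ r)
    (hs : Star p q cl L d0 e0 c0)
    (H : ∀ (c c' : ZMod r) (x x' : ℤ), (c1 (kl cl L c) p x : ℤ) - (c1 (kl cl L c') p x : ℤ) =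
      (c1 (kl cl L c) p x' : ℤ) - (c1 (kl cl L c') p x' : ℤ))
    (H2 : ∀ (c c' : ZMod r) (y y' : ℤ), (c2 (kl cl L c) q y : ℤ) - (c2 (kl cl L c') q y : ℤ) =
      (c2 (kl cl L c) q y' : ℤ) - (c2 (kl cl L c') q y' : ℤ))
    (H4 : ∀ x x' y y' : ℤ, cc L p q x y + cc L p q x' y' = cc L p q x' y + cc L p q x y') :
    4 ∣ L.card := by
  have : NeZero r := ⟨hr.ne'⟩
  have hq : q.Prime := by rw [hq2]; exact Nat.prime_two
  obtain ⟨k, b, h1, h2, h3, h4, h5, h6⟩ := pr_cnt hp hr r3 hs H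
  obtain ⟨k', b', h1', h2', h3', h4', h5', h6'⟩ := qr_cnt hq hr r3 hs H2
  obtain ⟨c, c', hc, hc', hcc⟩ := h86_cols r3 c0
  have hbb : b' = b := (h2' c hc).symm.trans (h2 c hc)
  subst hbb
  have hx := h86_one hp d0
  have hy := h86_one hq e0
  have e := H4 (d0 + 1) d0 (e0 + 1) e0
  rw [cc_zero0 hs (Finset.Subset.refl L) hx hy, cc_e0 hs (Finset.Subset.refl L) hx,
    cc_d0 hs (Finset.Subset.refl L) hy, h3 _ hx, h3' _ hy] at e
  have e2 : cc L p q d0 e0 + cc L p q d0 (e0 + 1) = c1 L p d0 := by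
    unfold cc c1
    rw [← Finset.card_filter_add_card_filter_not (s := L.filter fun a => (p : ℤ) ∣ a.1 - d0)
      (fun a => (q : ℤ) ∣ a.2 - e0), Finset.filter_filter, Finset.filter_filter]
    congr 2
    refine Finset.filter_congr fun a _ => ?_
    rw [hq2]
    constructor
    · rintro ⟨h7, h8⟩
      exact ⟨h7, by push_cast at h8 ⊢; omega⟩
    · rintro ⟨h7, h8⟩
      exact ⟨h7, by push_cast at h8 ⊢; omega⟩
  rw [cc_d0 hs (Finset.Subset.refl L) hy, h3' _ hy, h5] at e2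
  rw [h4', hq2]
  refine ⟨k', ?_⟩
  omega

end cnt

/-! ### the blocks of `A` -/

private theorem h86_pos {p n : ℕ} (hp : p.Prime) {d e x s : ℤ}
    (h1 : (p : ℤ) ^ (n + 1) ∣ d - (x + s * (p : ℤ) ^ n)) (h2 : (p : ℤ) ^ (n + 1) ∣ e - x)
    (hs : ¬ (p : ℤ) ∣ s) : (p : ℤ) ^ n ∣ d - e ∧ ¬ (p : ℤ) ^ (n + 1) ∣ d - e := by
  have e1 : d - e = (d - (x + s * (p : ℤ) ^ n)) - (e - x) + s * (p : ℤ) ^ n := by ring
  have hpn : (p : ℤ) ^ n ≠ 0 := pow_ne_zero _ (by exact_mod_cast hp.ne_zero)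
  have hle : (p : ℤ) ^ n ∣ (p : ℤ) ^ (n + 1) := pow_dvd_pow _ (Nat.le_succ n)
  constructor
  · rw [e1]
    exact dvd_add (dvd_sub (hle.trans h1) (hle.trans h2)) (dvd_mul_left _ _)
  · intro h3
    rw [e1] at h3
    have h4 : (p : ℤ) ^ (n + 1) ∣ s * (p : ℤ) ^ n := (dvd_add_right (dvd_sub h1 h2)).1 h3
    rw [pow_succ, mul_comm] at h4
    exact hs ((mul_dvd_mul_iff_right hpn).1 h4)

section blk

variable {p n q m r : ℕ} {ca cl : ℤ × ℤ → ZMod r} {A L : Finset (ℤ × ℤ)}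

theorem no_p (h : Mn p n q m ca cl A L) (hEp : ¬ Ep p L) {a b : ℤ × ℤ} (ha : a ∈ A) (hb : b ∈ A)
    (h1 : (p : ℤ) ^ n ∣ a.1 - b.1) (h2 : ¬ (p : ℤ) ^ (n + 1) ∣ a.1 - b.1)
    (h3 : (q : ℤ) ^ (m + 1) ∣ a.2 - b.2) : ca a ≠ ca b :=
  fun hc => hEp fun x => pat_p h.hp h.hq h.pq h.cp ha hb hc h1 h2 h3 x

theorem no_q (h : Mn p n q m ca cl A L) (hEq : ¬ Eq' q L) {a b : ℤ × ℤ} (ha : a ∈ A) (hb : b ∈ A)
    (h1 : (p : ℤ) ^ (n + 1) ∣ a.1 - b.1) (h2 : (q : ℤ) ^ m ∣ a.2 - b.2)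
    (h3 : ¬ (q : ℤ) ^ (m + 1) ∣ a.2 - b.2) : ca a ≠ ca b :=
  fun hc => hEq fun x => pat_q h.hp h.hq h.pq h.cp ha hb hc h1 h2 h3 x

/-- Two points of `A` at one position are equal. -/
theorem a_inj (h : Mn p n q m ca cl A L) {d0 e0 : ℤ} {c0 : ZMod r} (hs : Star p q cl L d0 e0 c0)
    {l l' : ℤ × ℤ} (hl : l ∈ L) (hl' : l' ∈ L) (hc : cl l = cl l')
    (hd : ¬ (p : ℤ) ∣ l.1 - l'.1) (he : ¬ (q : ℤ) ∣ l.2 - l'.2)
    {a b : ℤ × ℤ} (ha : a ∈ A) (hb : b ∈ A)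
    (h1 : (p : ℤ) ^ (n + 1) ∣ a.1 - b.1) (h2 : (q : ℤ) ^ (m + 1) ∣ a.2 - b.2) : a = b := by
  by_contra hne
  have : NeZero r := ⟨h.hr.ne_zero⟩
  have hcab : ca a ≠ ca b := fun e => hne (cp_inj h.hp.pos h.hq.pos h.cp ha hb e h1 h2)
  have hp1 : ¬ (p : ℤ) ∣ 1 := by have := h86_one h.hp 0; simpa using this
  have hq1 : ¬ (q : ℤ) ∣ 1 := by have := h86_one h.hq 0; simpa using this
  obtain ⟨c, c', hcc, -, -⟩ := h86_cols h.r3 c0
  have hr' : r * (kl cl L c).card = L.card :=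
    pat_r' h.hp.pos h.hq.pos h.hr.pos h.cp ha hb hcab h1 h2 c
  have e1 := st_S h.hp h.hq h.pq h.cp hl hl' hc hd he a.1 a.2 1 1
  have e2 : 2 ≤ cc A (p ^ (n + 1)) (q ^ (m + 1)) a.1 a.2 := by
    unfold cc
    rw [← Finset.card_pair hne]
    refine Finset.card_le_card ?_
    intro z hz
    rw [Finset.mem_insert, Finset.mem_singleton] at hz
    rw [Finset.mem_filter, Nat.cast_pow, Nat.cast_pow]
    rcases hz with rfl | rfl
    · exact ⟨ha, by simp, by simp⟩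
    · exact ⟨hb, h86_dsy h1, h86_dsy h2⟩
  have e3 : 0 < cc A (p ^ (n + 1)) (q ^ (m + 1)) (a.1 + 1 * (p : ℤ) ^ n) a.2 ∨
      0 < cc A (p ^ (n + 1)) (q ^ (m + 1)) a.1 (a.2 + 1 * (q : ℤ) ^ m) := by
    by_contra hcon
    rw [not_or] at hcon
    omega
  rcases e3 with e3 | e3
  · obtain ⟨d, hd1, hd2, hd3⟩ := cc_pos.1 e3
    rw [Nat.cast_pow] at hd2 hd3
    obtain ⟨z, hz, hzc, hz1, hz2⟩ : ∃ z ∈ A, ca d ≠ ca z ∧ (p : ℤ) ^ (n + 1) ∣ z.1 - a.1 ∧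
        (q : ℤ) ^ (m + 1) ∣ z.2 - a.2 := by
      by_cases hda : ca d = ca a
      · exact ⟨b, hb, by rw [hda]; exact hcab, h86_dsy h1, h86_dsy h2⟩
      · exact ⟨a, ha, hda, by simp, by simp⟩
    obtain ⟨h3, h4⟩ := h86_pos h.hp hd2 hz1 hp1
    have h5 : (q : ℤ) ^ (m + 1) ∣ d.2 - z.2 := h86_dtr hd3 (h86_dsy hz2)
    obtain ⟨k, b', k1, k2, k3, k4, -, -⟩ := pr_cnt h.hp h.hr.pos h.r3 hs
      (fun c c' x x' => pat_pr h.hp h.hq h.pq h.cp hd1 hz hzc h3 h4 h5 c c' x x')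
    rw [k2 c hcc] at hr'
    have : 0 < p * k := Nat.mul_pos h.hp.pos k1
    omega
  · obtain ⟨d, hd1, hd2, hd3⟩ := cc_pos.1 e3
    rw [Nat.cast_pow] at hd2 hd3
    obtain ⟨z, hz, hzc, hz1, hz2⟩ : ∃ z ∈ A, ca d ≠ ca z ∧ (p : ℤ) ^ (n + 1) ∣ z.1 - a.1 ∧
        (q : ℤ) ^ (m + 1) ∣ z.2 - a.2 := by
      by_cases hda : ca d = ca a
      · exact ⟨b, hb, by rw [hda]; exact hcab, h86_dsy h1, h86_dsy h2⟩
      · exact ⟨a, ha, hda, by simp, by simp⟩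
    obtain ⟨h3, h4⟩ := h86_pos h.hq hd3 hz2 hq1
    have h5 : (p : ℤ) ^ (n + 1) ∣ d.1 - z.1 := h86_dtr hd2 (h86_dsy hz1)
    obtain ⟨k, b', k1, k2, k3, k4, -, -⟩ := qr_cnt h.hq h.hr.pos h.r3 hs
      (fun c c' x x' => pat_qr h.hp h.hq h.pq h.cp hd1 hz hzc h5 h3 h4 c c' x x')
    rw [k2 c hcc] at hr'
    have : 0 < q * k := Nat.mul_pos h.hq.pos k1
    omega

/-- Full `q`-lines only: `q` divides the number of points. -/
theorem q_dvd (hq : q.Prime)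
    (hinj : ∀ a ∈ A, ∀ b ∈ A, (p : ℤ) ^ (n + 1) ∣ a.1 - b.1 → (q : ℤ) ^ (m + 1) ∣ a.2 - b.2 →
      a = b)
    (hFQ : ∀ a ∈ A, ∀ s : ℤ, ∃ b ∈ A, (p : ℤ) ^ (n + 1) ∣ b.1 - a.1 ∧
      (q : ℤ) ^ (m + 1) ∣ b.2 - (a.2 + s * (q : ℤ) ^ m)) : q ∣ A.card := by
  have hle : ∀ x s : ℤ, c2 A (q ^ (m + 1)) x ≤ c2 A (q ^ (m + 1)) (x + s * (q : ℤ) ^ m) := by
    intro x s
    unfold c2
    choose! f hf1 hf2 hf3 using fun a ha => hFQ a ha s
    refine Finset.card_le_card_of_injOn f ?_ ?_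
    · intro a ha
      obtain ⟨ha1, ha2⟩ := Finset.mem_filter.1 ha
      rw [Nat.cast_pow] at ha2
      refine Finset.mem_coe.2 (Finset.mem_filter.2 ⟨hf1 a ha1, ?_⟩)
      rw [Nat.cast_pow]
      have e : (f a).2 - (x + s * (q : ℤ) ^ m) =
          ((f a).2 - (a.2 + s * (q : ℤ) ^ m)) + (a.2 - x) := by ring
      rw [e]
      exact dvd_add (hf3 a ha1) ha2
    · intro a ha b hb hab
      obtain ⟨ha1, ha2⟩ := Finset.mem_filter.1 (Finset.mem_coe.1 ha)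
      obtain ⟨hb1, hb2⟩ := Finset.mem_filter.1 (Finset.mem_coe.1 hb)
      rw [Nat.cast_pow] at ha2 hb2
      refine hinj a ha1 b hb1 ?_ (h86_dtr ha2 (h86_dsy hb2))
      have e1 := hf2 a ha1
      have e2 := hf2 b hb1
      rw [← hab] at e2
      exact h86_dsub e2 e1
  have h1 := (ech2 hq A m).2 fun x s => by
    refine le_antisymm ?_ (hle x s)
    have e := hle (x + s * (q : ℤ) ^ m) (-s)
    have e2 : x + s * (q : ℤ) ^ m + -s * (q : ℤ) ^ m = x := by ring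
    rwa [e2] at e
  have h2 := pow_dvd2 hq A {m} fun j hj => by
    rw [Finset.mem_singleton] at hj
    rw [hj]
    exact h1
  rwa [Finset.card_singleton, pow_one] at h2

private theorem h86_arith {p q r K b k : ℕ} (hp : p.Prime) (hq : q.Prime) (hr : r.Prime)
    (hrq : r ≠ q) (hK : K ∣ p * q * r) (hrK : r ∣ K) (hqK : q ∣ K) (hk : 0 < k) (hb : 0 < b)
    (e : K = q * k + r * b) : K = p * q * r := by
  have hcop : Nat.Coprime q r := (Nat.coprime_primes hq hr).2 (Ne.symm hrq)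
  obtain ⟨j, rfl⟩ := hcop.mul_dvd_of_dvd_of_dvd hqK hrK
  have h1 : j ∣ p := by
    have h2 : q * r * j ∣ q * r * p := by
      have e1 : p * q * r = q * r * p := by ring
      rwa [e1] at hK
    exact (Nat.mul_dvd_mul_iff_left (Nat.mul_pos hq.pos hr.pos)).1 h2
  rcases (Nat.dvd_prime hp).1 h1 with h2 | h2
  · exfalso
    rw [h2, mul_one] at e
    have h3 : r ∣ q * k := by
      have h4 : r ∣ q * k + r * b := by
        rw [← e]
        exact dvd_mul_left _ _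
      exact (Nat.dvd_add_left (dvd_mul_right _ _)).1 h4
    have h4 : r ∣ k := by
      rcases (Nat.Prime.dvd_mul hr).1 h3 with h5 | h5
      · exact absurd ((Nat.prime_dvd_prime_iff_eq hr hq).1 h5) hrq
      · exact h5
    have h5 : r ≤ k := Nat.le_of_dvd hk h4
    have h6 : q * r ≤ q * k := Nat.mul_le_mul_left _ h5
    have h7 : 0 < r * b := Nat.mul_pos hr.pos hb
    omega
  · rw [h2]
    ring

/-- All `q`-lines are full. -/
theorem core (h : Mn p n q m ca cl A L) (hEp : ¬ Ep p L) (hEq : ¬ Eq' q L)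
    {d0 e0 : ℤ} {c0 : ZMod r} (hs : Star p q cl L d0 e0 c0)
    (hinj : ∀ a ∈ A, ∀ b ∈ A, (p : ℤ) ^ (n + 1) ∣ a.1 - b.1 → (q : ℤ) ^ (m + 1) ∣ a.2 - b.2 →
      a = b)
    (hFQ : ∀ a ∈ A, ∀ s : ℤ, ∃ b ∈ A, (p : ℤ) ^ (n + 1) ∣ b.1 - a.1 ∧
      (q : ℤ) ^ (m + 1) ∣ b.2 - (a.2 + s * (q : ℤ) ^ m)) :
    ∃ k b : ℕ, Row p n q m ca cl A L d0 e0 c0 k b := by
  have : NeZero r := ⟨h.hr.ne_zero⟩
  have hq1 : ¬ (q : ℤ) ∣ 1 := by have := h86_one h.hq 0; simpa using this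
  obtain ⟨c, c', hc, -, -⟩ := h86_cols h.r3 c0
  have hself : ∀ (P : ℤ) (x : ℤ), P ∣ x - x := fun P x => by simp
  -- the pattern `{q, r}`
  have H2 : ∀ (c c' : ZMod r) (y y' : ℤ), (c2 (kl cl L c) q y : ℤ) - (c2 (kl cl L c') q y : ℤ) =
      (c2 (kl cl L c) q y' : ℤ) - (c2 (kl cl L c') q y' : ℤ) := by
    obtain ⟨a, ha⟩ := h.ne
    obtain ⟨b, hb, hb1, hb2⟩ := hFQ a ha 1
    obtain ⟨h3, h4⟩ := h86_pos h.hq hb2 (hself _ a.2) hq1
    exact fun c c' y y' => pat_qr h.hp h.hq h.pq h.cp hb ha (no_q h hEq hb ha hb1 h3 h4) hb1 h3 h4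
      c c' y y'
  obtain ⟨k, b, k1, k2, k3, k4, -, -⟩ := qr_cnt h.hq h.hr.pos h.r3 hs H2
  have hb0 : 0 < b := by
    rw [← k2 c hc]
    exact Finset.card_pos.2 (h.fL c)
  have hqK : q ∣ A.card := q_dvd h.hq hinj hFQ
  have hK : A.card = p * q * r :=
    h86_arith h.hp h.hq h.hr h.rq h.Kd h.rK hqK k1 hb0 (by rw [h.cp.card]; exact k4)
  refine ⟨k, b, ?_⟩
  refine ⟨h.hp, h.hq, h.hr, h.r3, h.pq, h.rp, h.rq, h.cp, hK, hFQ, ?_, hs.cen, hs.star, k1, hb0, k2,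
    k3, by rw [← hK, h.cp.card]; exact k4⟩
  intro a ha a' ha' hne h1 h2
  -- the points are in one row
  have hrow : (p : ℤ) ^ (n + 1) ∣ a.1 - a'.1 := by
    by_contra h3
    obtain ⟨t, ht⟩ := h2
    obtain ⟨b0, hb01, hb02, hb03⟩ := hFQ a' ha' t
    have e0 : a'.2 + t * (q : ℤ) ^ m = a.2 := by linear_combination -ht
    rw [e0] at hb03
    have f1 : (p : ℤ) ^ n ∣ a.1 - b0.1 :=
      h86_dtr h1 (h86_dsy ((pow_dvd_pow _ (Nat.le_succ n)).trans hb02))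
    have f2 : ¬ (p : ℤ) ^ (n + 1) ∣ a.1 - b0.1 := fun f => h3 (h86_dtr f hb02)
    have f3 := h86_dsy hb03
    have hcb := no_p h hEp ha hb01 f1 f2 f3
    have H : ∀ (c c' : ZMod r) (x x' : ℤ), (c1 (kl cl L c) p x : ℤ) - (c1 (kl cl L c') p x : ℤ) =
        (c1 (kl cl L c) p x' : ℤ) - (c1 (kl cl L c') p x' : ℤ) :=
      fun c c' x x' => pat_pr h.hp h.hq h.pq h.cp ha hb01 hcb f1 f2 f3 c c' x x'
    -- a point of the other row in another column has the colour of `a`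
    have key : ∀ s : ℤ, ¬ (q : ℤ) ∣ s → ∀ z ∈ A, (p : ℤ) ^ (n + 1) ∣ z.1 - a'.1 →
        (q : ℤ) ^ (m + 1) ∣ z.2 - (a.2 + s * (q : ℤ) ^ m) → ca z = ca a ∧
        (p : ℤ) ^ n ∣ z.1 - a.1 ∧ ¬ (p : ℤ) ^ (n + 1) ∣ z.1 - a.1 ∧ (q : ℤ) ^ m ∣ z.2 - a.2 ∧
        ¬ (q : ℤ) ^ (m + 1) ∣ z.2 - a.2 := by
      intro s hs' z hz hz1 hz2
      obtain ⟨g3, g4⟩ := h86_pos h.hq hz2 (hself _ a.2) hs'
      have g1 : (p : ℤ) ^ n ∣ z.1 - a.1 :=
        h86_dtr ((pow_dvd_pow _ (Nat.le_succ n)).trans hz1) (h86_dsy h1)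
      have g2 : ¬ (p : ℤ) ^ (n + 1) ∣ z.1 - a.1 := fun f => h3 (h86_dtr (h86_dsy f) hz1)
      refine ⟨?_, g1, g2, g3, g4⟩
      by_contra hcz
      exact no_pr_pqr h.hp h.hr.pos h.r3 hs H fun c c' x x' y y' =>
        pat_pqr h.hp h.hq h.pq h.cp hz ha hcz g1 g2 g3 g4 c c' x x' y y'
    obtain ⟨b1, hb11, hb12, hb13⟩ := hFQ a' ha' (t + 1)
    have e1 : a'.2 + (t + 1) * (q : ℤ) ^ m = a.2 + 1 * (q : ℤ) ^ m := by linear_combination -ht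
    rw [e1] at hb13
    obtain ⟨u1, u2, u3, u4, u5⟩ := key 1 hq1 b1 hb11 hb12 hb13
    by_cases hq2 : q = 2
    · have H4 : ∀ x x' y y' : ℤ,
          cc L p q x y + cc L p q x' y' = cc L p q x' y + cc L p q x y' :=
        fun x x' y y' => pat_pq h.hp h.hq h.pq h.cp hb11 ha u1 u2 u3 u4 u5 x x' y y'
      have e4 := four_dvd h.hp hq2 h.hr.pos h.r3 hs H H2 H4
      rw [← h.cp.card, hK, hq2] at e4
      have e5 : 2 * 2 ∣ 2 * (p * r) := by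
        have e6 : p * 2 * r = 2 * (p * r) := by ring
        rw [e6] at e4
        exact e4
      have e6 := (Nat.mul_dvd_mul_iff_left (by norm_num : 0 < 2)).1 e5
      rcases (Nat.Prime.dvd_mul Nat.prime_two).1 e6 with e7 | e7
      · exact h.pq (((Nat.prime_dvd_prime_iff_eq Nat.prime_two h.hp).1 e7).symm.trans hq2.symm)
      · have := (Nat.prime_dvd_prime_iff_eq Nat.prime_two h.hr).1 e7
        have := h.r3
        omega
    · have hq3 : ¬ (q : ℤ) ∣ 2 := by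
        intro e
        have e' : q ∣ 2 := by exact_mod_cast e
        exact hq2 ((Nat.prime_dvd_prime_iff_eq h.hq Nat.prime_two).1 e')
      obtain ⟨b2, hb21, hb22, hb23⟩ := hFQ a' ha' (t + 2)
      have e2 : a'.2 + (t + 2) * (q : ℤ) ^ m = a.2 + 2 * (q : ℤ) ^ m := by linear_combination -ht
      rw [e2] at hb23
      obtain ⟨v1, v2, v3, v4, v5⟩ := key 2 hq3 b2 hb21 hb22 hb23
      have e3 : a.2 + 2 * (q : ℤ) ^ m = (a.2 + 1 * (q : ℤ) ^ m) + 1 * (q : ℤ) ^ m := by ring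
      rw [e3] at hb23
      obtain ⟨w1, w2⟩ := h86_pos h.hq hb23 hb13 hq1
      exact no_q h hEq hb21 hb11 (h86_dtr hb22 (h86_dsy hb12)) w1 w2 (v1.trans u1.symm)
  have hcol : ¬ (q : ℤ) ^ (m + 1) ∣ a.2 - a'.2 := fun f => hne (hinj a ha a' ha' hrow f)
  exact ⟨hrow, hcol, no_q h hEq ha ha' hrow h2 hcol⟩

end blk

/-- LEAF Z, state S. -/
theorem leafZS : LeafZS := by
  intro p n q m r ca cl A L h hEp hEq hS
  have : NeZero r := ⟨h.hr.ne_zero⟩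
  obtain ⟨d0, e0, c0, hs⟩ := star_ex h hS
  obtain ⟨l1, h1, l2, h2, hd, he⟩ := zz_pair h.oL1 h.oL2
  have hcc : cl l1 = cl l2 := hS _ h1 _ h2 hd he
  have hinj : ∀ a ∈ A, ∀ b ∈ A, (p : ℤ) ^ (n + 1) ∣ a.1 - b.1 → (q : ℤ) ^ (m + 1) ∣ a.2 - b.2 →
      a = b := fun a ha b hb e1 e2 => a_inj h hs h1 h2 hcc hd he ha hb e1 e2
  have hp1 : ¬ (p : ℤ) ∣ 1 := by have := h86_one h.hp 0; simpa using this
  have hq1 : ¬ (q : ℤ) ∣ 1 := by have := h86_one h.hq 0; simpa using this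
  have hself : ∀ (P : ℤ) (x : ℤ), P ∣ x - x := fun P x => by simp
  have hle : ∀ x y : ℤ, cc A (p ^ (n + 1)) (q ^ (m + 1)) x y ≤ 1 := by
    intro x y
    unfold cc
    refine Finset.card_le_one.2 fun a ha b hb => ?_
    obtain ⟨ha1, ha2, ha3⟩ := Finset.mem_filter.1 ha
    obtain ⟨hb1, hb2, hb3⟩ := Finset.mem_filter.1 hb
    rw [Nat.cast_pow] at ha2 ha3 hb2 hb3
    exact hinj a ha1 b hb1 (h86_dtr ha2 (h86_dsy hb2)) (h86_dtr ha3 (h86_dsy hb3))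
  -- one of the two lines is full
  have dich : ∀ a ∈ A, (∀ s : ℤ, ∃ b ∈ A, (p : ℤ) ^ (n + 1) ∣ b.1 - a.1 ∧
      (q : ℤ) ^ (m + 1) ∣ b.2 - (a.2 + s * (q : ℤ) ^ m)) ∨
      ∀ s : ℤ, ∃ b ∈ A, (p : ℤ) ^ (n + 1) ∣ b.1 - (a.1 + s * (p : ℤ) ^ n) ∧
      (q : ℤ) ^ (m + 1) ∣ b.2 - a.2 := by
    intro a ha
    rw [or_iff_not_imp_left]
    intro hno s
    push Not at hno
    obtain ⟨t, ht⟩ := hno
    have e1 := st_S h.hp h.hq h.pq h.cp h1 h2 hcc hd he a.1 a.2 s t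
    have e2 : cc A (p ^ (n + 1)) (q ^ (m + 1)) a.1 (a.2 + t * (q : ℤ) ^ m) = 0 := by
      by_contra hcon
      obtain ⟨b, hb1, hb2, hb3⟩ := cc_pos.1 (Nat.pos_of_ne_zero hcon)
      rw [Nat.cast_pow] at hb2 hb3
      exact ht b hb1 hb2 hb3
    have e3 : 0 < cc A (p ^ (n + 1)) (q ^ (m + 1)) a.1 a.2 :=
      cc_pos.2 ⟨a, ha, by simp, by simp⟩
    have e4 : 0 < cc A (p ^ (n + 1)) (q ^ (m + 1)) (a.1 + s * (p : ℤ) ^ n) a.2 := by omega
    obtain ⟨b, hb1, hb2, hb3⟩ := cc_pos.1 e4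
    rw [Nat.cast_pow] at hb2 hb3
    exact ⟨b, hb1, hb2, hb3⟩
  by_cases hQ : ∀ a ∈ A, ∀ s : ℤ, ∃ b ∈ A, (p : ℤ) ^ (n + 1) ∣ b.1 - a.1 ∧
      (q : ℤ) ^ (m + 1) ∣ b.2 - (a.2 + s * (q : ℤ) ^ m)
  · obtain ⟨k, b, hR⟩ := core h hEp hEq hs hinj hQ
    exact Or.inl ⟨d0, e0, c0, k, b, hR⟩
  by_cases hP : ∀ a ∈ A, ∀ s : ℤ, ∃ b ∈ A, (p : ℤ) ^ (n + 1) ∣ b.1 - (a.1 + s * (p : ℤ) ^ n) ∧
      (q : ℤ) ^ (m + 1) ∣ b.2 - a.2
  · right
    obtain ⟨k, b, hR⟩ := core h.sw (fun e => hEq (Ep_sw.1 e)) (fun e => hEp (Eq_sw.1 e)) hs.sw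
      (fun a ha b hb e1 e2 => by
        have e := hinj _ (Pool.Agent.Helper92.SS.mem_sw.1 ha) _
          (Pool.Agent.Helper92.SS.mem_sw.1 hb) e2 e1
        rw [Prod.mk.injEq] at e
        exact Prod.ext e.2 e.1)
      (fun a ha s => by
        obtain ⟨b, hb, hb1, hb2⟩ := hP _ (Pool.Agent.Helper92.SS.mem_sw.1 ha) s
        exact ⟨(b.2, b.1), Pool.Agent.Helper92.SS.mem_sw.2 hb, hb2, hb1⟩)
    exact ⟨e0, d0, c0, k, b, hR⟩
  -- both kinds of lines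
  exfalso
  push Not at hQ hP
  obtain ⟨a1, ha1, s1, hs1⟩ := hQ
  obtain ⟨a2, ha2, s2, hs2⟩ := hP
  have fP : ∀ s : ℤ, ∃ b ∈ A, (p : ℤ) ^ (n + 1) ∣ b.1 - (a1.1 + s * (p : ℤ) ^ n) ∧
      (q : ℤ) ^ (m + 1) ∣ b.2 - a1.2 := by
    rcases dich a1 ha1 with e | e
    · obtain ⟨b, hb, hb1, hb2⟩ := e s1
      exact absurd hb2 (hs1 b hb hb1)
    · exact e
  have fQ : ∀ s : ℤ, ∃ b ∈ A, (p : ℤ) ^ (n + 1) ∣ b.1 - a2.1 ∧
      (q : ℤ) ^ (m + 1) ∣ b.2 - (a2.2 + s * (q : ℤ) ^ m) := by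
    rcases dich a2 ha2 with e | e
    · exact e
    · obtain ⟨b, hb, hb1, hb2⟩ := e s2
      exact absurd hb2 (hs2 b hb hb1)
  obtain ⟨b1, hb1, hb11, hb12⟩ := fP 1
  obtain ⟨b2, hb2, hb21, hb22⟩ := fQ 1
  obtain ⟨g1, g2⟩ := h86_pos h.hp hb11 (hself _ a1.1) hp1
  obtain ⟨g3, g4⟩ := h86_pos h.hq hb22 (hself _ a2.2) hq1
  obtain ⟨k, b, k1, k2, k3, k4, -, -⟩ := pr_cnt h.hp h.hr.pos h.r3 hs
    (fun c c' x x' => pat_pr h.hp h.hq h.pq h.cp hb1 ha1 (no_p h hEp hb1 ha1 g1 g2 hb12)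
      g1 g2 hb12 c c' x x')
  obtain ⟨k', b', k1', k2', k3', k4', -, -⟩ := qr_cnt h.hq h.hr.pos h.r3 hs
    (fun c c' x x' => pat_qr h.hp h.hq h.pq h.cp hb2 ha2 (no_q h hEq hb2 ha2 hb21 g3 g4)
      hb21 g3 g4 c c' x x')
  obtain ⟨c, c', hc, -, -⟩ := h86_cols h.r3 c0
  have hbb : b' = b := (k2' c hc).symm.trans (k2 c hc)
  subst hbb
  have e1 : p * k = q * k' := by omega
  have hrK : r ∣ L.card := by rw [← h.cp.card]; exact h.rK
  have e2 : q ∣ k := by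
    have : q ∣ p * k := by rw [e1]; exact dvd_mul_right _ _
    rcases (Nat.Prime.dvd_mul h.hq).1 this with e | e
    · exact absurd ((Nat.prime_dvd_prime_iff_eq h.hq h.hp).1 e).symm h.pq
    · exact e
  have e3 : r ∣ k := by
    have : r ∣ p * k := by
      have e4 : r ∣ p * k + r * b' := by rw [← k4]; exact hrK
      exact (Nat.dvd_add_left (dvd_mul_right _ _)).1 e4
    rcases (Nat.Prime.dvd_mul h.hr).1 this with e | e
    · exact absurd ((Nat.prime_dvd_prime_iff_eq h.hr h.hp).1 e) h.rp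
    · exact e
  have e4 : q * r ∣ k := ((Nat.coprime_primes h.hq h.hr).2 (Ne.symm h.rq)).mul_dvd_of_dvd_of_dvd
    e2 e3
  have e5 : q * r ≤ k := Nat.le_of_dvd k1 e4
  have e6 : p * (q * r) ≤ p * k := Nat.mul_le_mul_left _ e5
  have e7 : L.card ≤ p * q * r := by
    rw [← h.cp.card]
    exact Nat.le_of_dvd (Nat.mul_pos (Nat.mul_pos h.hp.pos h.hq.pos) h.hr.pos) h.Kd
  have e8 : 0 < r * b' := by
    have : 0 < b' := by
      rw [← k2 c hc]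
      exact Finset.card_pos.2 (h.fL c)
    exact Nat.mul_pos h.hr.pos this
  have e9 : p * (q * r) = p * q * r := by ring
  omega

end Pool.Agent.Helper86.PU
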